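import Pool.Agent.Helper21.TF.TwoS
import Pool.Agent.Helper3.PF.Orth

/-!
Project TF, block B: the long roots and the coordinates of the large root systems.
-/

set_option linter.unusedSectionVars false

open Module PF

namespace TF

variable {E : Type*} [NormedAddCommGroup E] [InnerProductSpace ℝ E] {Φ : Finset E}

/-- a long root is a sum of two short roots -/
theorem long_sum (h : NRS Φ) {b : E} (hb : b ∈ Φ) (hbP : b ∉ Psi Φ) :
    (inner ℝ b b = (4 : ℝ) ∧ ∃ g ∈ Psi Φ, ∃ g' ∈ Psi Φ, b = g + g' ∧ inner ℝ b g = (2 : ℝ)) ∨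
      (inner ℝ b b = (6 : ℝ) ∧ ∃ g ∈ Psi Φ, ∃ g' ∈ Psi Φ, b = g + g' ∧ inner ℝ b g = (3 : ℝ)) := by
  obtain ⟨g, hg, hbg⟩ := h.exists_short hb
  rcases h.length hb with h2 | h4 | h6
  · exact absurd (mem_Psi.2 ⟨hb, h2⟩) hbP
  · left
    have h3 : inner ℝ b g = (2 : ℝ) := by
      rcases h.four hb h4 hg with h3 | h3 | h3
      · rw [h3] at hbg; norm_num at hbg
      · exact h3
      · rw [h3] at hbg; norm_num at hbg
    exact ⟨h4, g, hg, b - g, (h.four_sub hb h4 hg h3).1, by abel, h3⟩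
  · right
    have h3 : inner ℝ b g = (3 : ℝ) := by
      rcases h.six hb h6 hg with h3 | h3 | h3
      · rw [h3] at hbg; norm_num at hbg
      · exact h3
      · rw [h3] at hbg; norm_num at hbg
    exact ⟨h6, g, hg, b - g, (h.six_sub hb h6 hg h3).1, by abel, h3⟩

theorem exists_notMem {m : ℕ} (hm : 10 ≤ m) (S : Finset (Fin m)) (hS : S.card ≤ 5) : ∃ t, t ∉ S := by
  by_contra hcon
  push Not at hcon
  have h1 : (Finset.univ : Finset (Fin m)).card ≤ S.card := Finset.card_le_card fun t _ => hcon t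
  rw [Finset.card_univ, Fintype.card_fin] at h1
  omega

/-- type `A` has no long roots -/
theorem Mx.longA {m : ℕ} {u : Fin m → E} (M : Mx Φ m u) (h : NRS Φ) (hm : 10 ≤ m)
    (hA : ∀ x ∈ Psi Φ, ∃ i j, i ≠ j ∧ x = u i - u j) {b : E} (hb : b ∈ Φ) : b ∈ Psi Φ := by
  classical
  by_contra hbP
  have key : ∀ c : ℝ, (∀ g ∈ Psi Φ, inner ℝ b g = (0 : ℝ) ∨ inner ℝ b g = c ∨ inner ℝ b g = -c) →
      (∃ g ∈ Psi Φ, ∃ g' ∈ Psi Φ, b = g + g' ∧ inner ℝ b g = c) → c = 2 ∨ c = 3 → False := by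
    intro c hc hex hc23
    obtain ⟨g, hg, g', hg', hbg, hbc⟩ := hex
    obtain ⟨i, j, hij, hgu⟩ := hA g hg
    obtain ⟨k, l, hkl, hgu'⟩ := hA g' hg'
    obtain ⟨t, ht⟩ := exists_notMem hm ({i, j, k, l} : Finset (Fin m)) (by
      refine (Finset.card_insert_le _ _).trans ?_
      have := Finset.card_le_three (a := j) (b := k) (c := l)
      omega)
    simp only [Finset.mem_insert, Finset.mem_singleton, not_or] at ht
    obtain ⟨hti, htj, htk, htl⟩ := ht
    have hbs : ∀ s, inner ℝ b (u s) = ((if i = s then (1 : ℝ) else 0) - (if j = s then (1 : ℝ) else 0)) +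
        ((if k = s then (1 : ℝ) else 0) - (if l = s then (1 : ℝ) else 0)) := by
      intro s
      rw [hbg, inner_add_left, hgu, hgu', M.inner_sub, M.inner_sub]
    have hbt : inner ℝ b (u t) = (0 : ℝ) := by
      rw [hbs, if_neg (Ne.symm hti), if_neg (Ne.symm htj), if_neg (Ne.symm htk), if_neg (Ne.symm htl)]
      ring
    have hs : ∀ s, inner ℝ b (u s) = (0 : ℝ) ∨ inner ℝ b (u s) = c ∨ inner ℝ b (u s) = -c := by
      intro s
      by_cases hst : s = t
      · left; rw [hst]; exact hbt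
      · have h1 := hc _ (M.mem s t hst)
        rw [inner_sub_right, hbt, sub_zero] at h1
        exact h1
    have hci : inner ℝ b (u i) - inner ℝ b (u j) = c := by
      rw [← hbc, hgu, inner_sub_right]
    have h1 := hs i
    have h2 := hs j
    rw [hbs i, hbs j, if_pos rfl, if_pos rfl, if_neg hij, if_neg hij.symm] at hci
    rw [hbs i, if_pos rfl, if_neg hij.symm] at h1
    rw [hbs j, if_pos rfl, if_neg hij] at h2
    have hk : ¬ (k = i ∧ k = j) := fun e => hij (e.1.symm.trans e.2)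
    have hl : ¬ (l = i ∧ l = j) := fun e => hij (e.1.symm.trans e.2)
    rcases hc23 with rfl | rfl <;> rcases h1 with h1 | h1 | h1 <;> rcases h2 with h2 | h2 | h2 <;>
      split_ifs at h1 h2 hci <;> first | linarith | (exfalso; tauto)
  rcases long_sum h hb hbP with ⟨h4, hex⟩ | ⟨h6, hex⟩
  · exact key 2 (fun g hg => h.four hb h4 hg) hex (Or.inl rfl)
  · exact key 3 (fun g hg => h.six hb h6 hg) hex (Or.inr rfl)

theorem Mx.frA {m : ℕ} {u : Fin m → E} (M : Mx Φ m u) (h : NRS Φ) (hm : 10 ≤ m)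
    (hA : ∀ x ∈ Psi Φ, ∃ i j, i ≠ j ∧ x = u i - u j) : FrA Φ m u := by
  refine ⟨M.gram, fun a => ⟨fun ha => hA a (M.longA h hm hA ha), ?_⟩⟩
  rintro ⟨i, j, hij, rfl⟩
  exact (mem_Psi.1 (M.mem i j hij)).1

/-- the long roots in case `D` -/
theorem longD {m : ℕ} {e : Fin m → E} (h : NRS Φ) (hm : 10 ≤ m) (he : Orthonormal ℝ e)
    (hD : ∀ y, y ∈ Psi Φ ↔ ∃ i j, i ≠ j ∧ (y = e i + e j ∨ y = e i - e j ∨ y = -(e i + e j)))
    {b : E} (hb : b ∈ Φ) (hbP : b ∉ Psi Φ) : ∃ s, b = (2 : ℝ) • e s ∨ b = -((2 : ℝ) • e s) := by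
  classical
  have hee := orthonormal_iff_ite.1 he
  have hsup : ∀ y ∈ Psi Φ, ∃ i j, ∀ t, t ≠ i → t ≠ j → inner ℝ y (e t) = (0 : ℝ) := by
    intro y hy
    obtain ⟨i, j, hij, h1⟩ := (hD y).1 hy
    refine ⟨i, j, fun t hti htj => ?_⟩
    rcases h1 with rfl | rfl | rfl
    · rw [inner_add_left, hee, hee, if_neg (Ne.symm hti), if_neg (Ne.symm htj), add_zero]
    · rw [inner_sub_left, hee, hee, if_neg (Ne.symm hti), if_neg (Ne.symm htj), sub_zero]
    · rw [inner_neg_left, inner_add_left, hee, hee, if_neg (Ne.symm hti), if_neg (Ne.symm htj), add_zero, neg_zero]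
  have key : ∀ c : ℝ, (∀ g ∈ Psi Φ, inner ℝ b g = (0 : ℝ) ∨ inner ℝ b g = c ∨ inner ℝ b g = -c) →
      (∃ g ∈ Psi Φ, ∃ g' ∈ Psi Φ, b = g + g' ∧ inner ℝ b g = c) → c ≠ 0 →
      ∃ s, inner ℝ b (e s) = c ∨ inner ℝ b (e s) = -c := by
    intro c hc hex hc0
    obtain ⟨g, hg, g', hg', hbg, hbc⟩ := hex
    obtain ⟨s, hs⟩ : ∃ s, inner ℝ b (e s) ≠ (0 : ℝ) := by
      by_contra hcon
      push Not at hcon
      obtain ⟨i, j, hij, h1⟩ := (hD g).1 hg
      apply hc0
      rw [← hbc]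
      rcases h1 with rfl | rfl | rfl
      · rw [inner_add_right, hcon, hcon, add_zero]
      · rw [inner_sub_right, hcon, hcon, sub_zero]
      · rw [inner_neg_right, inner_add_right, hcon, hcon, add_zero, neg_zero]
    obtain ⟨i, j, h1⟩ := hsup g hg
    obtain ⟨k, l, h2⟩ := hsup g' hg'
    obtain ⟨t, ht⟩ := exists_notMem hm ({s, i, j, k, l} : Finset (Fin m)) Finset.card_le_five
    simp only [Finset.mem_insert, Finset.mem_singleton, not_or] at ht
    obtain ⟨hts, hti, htj, htk, htl⟩ := ht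
    have hbt : inner ℝ b (e t) = (0 : ℝ) := by
      rw [hbg, inner_add_left, h1 t hti htj, h2 t htk htl, add_zero]
    have h3 := hc (e s + e t) ((hD _).2 ⟨s, t, Ne.symm hts, Or.inl rfl⟩)
    rw [inner_add_right, hbt, add_zero] at h3
    rcases h3 with h3 | h3 | h3
    · exact absurd h3 hs
    · exact ⟨s, Or.inl h3⟩
    · exact ⟨s, Or.inr h3⟩
  have hsq : ∀ (c : ℝ) (s : Fin m), inner ℝ (b - c • e s) (b - c • e s) =
      (inner ℝ b b : ℝ) - 2 * c * inner ℝ b (e s) + c ^ 2 := by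
    intro c s
    rw [inner_sub_left, inner_sub_right, inner_sub_right, inner_smul_left, inner_smul_right, inner_smul_left,
      inner_smul_right, real_inner_comm b (e s), hee, if_pos rfl]
    simp only [conj_trivial]
    ring
  rcases long_sum h hb hbP with ⟨h4, hex⟩ | ⟨h6, hex⟩
  · obtain ⟨s, h1⟩ := key 2 (fun g hg => h.four hb h4 hg) hex (by norm_num)
    refine ⟨s, ?_⟩
    rcases h1 with h1 | h1
    · left
      have h2 := hsq 2 s
      rw [h1, h4] at h2
      norm_num at h2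
      exact sub_eq_zero.1 h2
    · right
      have h2 := hsq (-2) s
      rw [h1, h4] at h2
      norm_num at h2
      rw [← neg_smul]
      exact eq_neg_of_add_eq_zero_left (by simpa using h2) |>.trans (by rw [neg_smul])
  · exfalso
    obtain ⟨s, h1⟩ := key 3 (fun g hg => h.six hb h6 hg) hex (by norm_num)
    rcases h1 with h1 | h1
    · have h2 : (0 : ℝ) ≤ inner ℝ (b - (3 : ℝ) • e s) (b - (3 : ℝ) • e s) := real_inner_self_nonneg
      rw [hsq, h1, h6] at h2
      norm_num at h2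
    · have h2 : (0 : ℝ) ≤ inner ℝ (b - (-3 : ℝ) • e s) (b - (-3 : ℝ) • e s) := real_inner_self_nonneg
      rw [hsq, h1, h6] at h2
      norm_num at h2

/-- one long root gives all -/
theorem allD {m : ℕ} {e : Fin m → E} (h : NRS Φ) (he : Orthonormal ℝ e)
    (hD : ∀ y, y ∈ Psi Φ ↔ ∃ i j, i ≠ j ∧ (y = e i + e j ∨ y = e i - e j ∨ y = -(e i + e j)))
    {s : Fin m} (hs : (2 : ℝ) • e s ∈ Φ) (t : Fin m) : (2 : ℝ) • e t ∈ Φ := by
  by_cases hst : s = t
  · rw [← hst]; exact hs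
  have hee := orthonormal_iff_ite.1 he
  have h1 : e s - e t ∈ Psi Φ := (hD _).2 ⟨s, t, hst, Or.inr (Or.inl rfl)⟩
  have h2 := h.refl _ (mem_Psi.1 h1).1 _ hs
  rw [co_Psi h1, inner_smul_left, inner_sub_right, hee, hee, if_pos rfl, if_neg hst] at h2
  simp only [conj_trivial] at h2
  have h3 : (2 : ℝ) • e t = (2 : ℝ) • e s - (2 * (1 - 0) : ℝ) • (e s - e t) := by
    rw [sub_zero, mul_one, smul_sub]
    abel
  rw [h3]
  exact h2

theorem frD {m : ℕ} {e : Fin m → E} (h : NRS Φ) (hm : 10 ≤ m) (he : Orthonormal ℝ e)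
    (hD : ∀ y, y ∈ Psi Φ ↔ ∃ i j, i ≠ j ∧ (y = e i + e j ∨ y = e i - e j ∨ y = -(e i + e j))) :
    ∃ d : ℕ, Fr Φ m e 1 d := by
  classical
  by_cases hex : ∃ b ∈ Φ, b ∉ Psi Φ
  · obtain ⟨b, hb, hbP⟩ := hex
    obtain ⟨s, hs⟩ : ∃ s, (2 : ℝ) • e s ∈ Φ := by
      obtain ⟨s, h1⟩ := longD h hm he hD hb hbP
      refine ⟨s, ?_⟩
      rcases h1 with h1 | h1
      · rw [← h1]; exact hb
      · have h2 := h.toRS.neg_mem hb
        rw [h1, neg_neg] at h2
        exact h2
    refine ⟨2, he, one_pos, le_rfl, fun a => ?_⟩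
    simp only [one_smul, Nat.cast_ofNat, mul_one]
    constructor
    · intro ha
      by_cases haP : a ∈ Psi Φ
      · exact Or.inl ((hD a).1 haP)
      · exact Or.inr ⟨by norm_num, longD h hm he hD ha haP⟩
    · rintro (h1 | ⟨-, t, h1 | h1⟩)
      · exact (mem_Psi.1 ((hD a).2 h1)).1
      · rw [h1]; exact allD h he hD hs t
      · rw [h1]; exact h.toRS.neg_mem (allD h he hD hs t)
  · push Not at hex
    refine ⟨0, he, one_pos, by norm_num, fun a => ?_⟩
    simp only [one_smul]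
    constructor
    · intro ha
      exact Or.inl ((hD a).1 (hex a ha))
    · rintro (h1 | ⟨h1, -⟩)
      · exact (mem_Psi.1 ((hD a).2 h1)).1
      · exact absurd rfl h1

/-- orthogonal short roots: type `B` -/
theorem frB (H : ORS Φ) : ∃ m, (Psi Φ).card ≤ 2 * m ∧ ∃ (e : Fin m → E) (c : ℝ), Fr Φ m e c 1 := by
  classical
  obtain ⟨T, hTP, hTn, hTc⟩ := H.exists_half
  have h := H.toNRS
  set e := T.equivFin.symm with he
  have hs2 : (Real.sqrt 2) * (Real.sqrt 2) = 2 := Real.mul_self_sqrt (by norm_num)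
  have hs0 : (0 : ℝ) < Real.sqrt 2 := Real.sqrt_pos.2 (by norm_num)
  have hcx : ∀ i, (Real.sqrt 2) • ((Real.sqrt 2)⁻¹ • ((e i : T) : E)) = ((e i : T) : E) := by
    intro i
    rw [smul_smul, mul_inv_cancel₀ hs0.ne', one_smul]
  have hmem : ∀ i, ((e i : T) : E) ∈ Psi Φ := fun i => hTP (e i).2
  have hxP : ∀ y, y ∈ Psi Φ ↔ ∃ i, y = ((e i : T) : E) ∨ y = -((e i : T) : E) := by
    intro y
    constructor
    · intro hy
      rcases hTc y hy with h1 | h1
      · exact ⟨e.symm ⟨y, h1⟩, Or.inl (by simp)⟩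
      · exact ⟨e.symm ⟨-y, h1⟩, Or.inr (by simp)⟩
    · rintro ⟨i, rfl | rfl⟩
      · exact hmem i
      · exact h.neg_Psi (hmem i)
  have horth : ∀ i j, i ≠ j → inner ℝ ((e i : T) : E) ((e j : T) : E) = (0 : ℝ) := by
    intro i j hij
    rcases H.inner_cases (hmem i) (hmem j) with e1 | e1 | e1
    · exact absurd (e.injective (Subtype.ext e1)) hij
    · exact absurd (e i).2 (by rw [e1]; exact hTn _ (e j).2)
    · exact e1
  refine ⟨T.card, ?_, fun i => (Real.sqrt 2)⁻¹ • ((e i : T) : E), Real.sqrt 2, ?_, hs0, by norm_num, ?_⟩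
  · have h1 : Psi Φ ⊆ T ∪ T.image fun g => -g := by
      intro g hg
      rw [Finset.mem_union, Finset.mem_image]
      rcases hTc g hg with h1 | h1
      · exact Or.inl h1
      · exact Or.inr ⟨-g, h1, neg_neg g⟩
    refine (Finset.card_le_card h1).trans ((Finset.card_union_le _ _).trans ?_)
    have := Finset.card_image_le (s := T) (f := fun g => -g)
    omega
  · rw [orthonormal_iff_ite]
    intro i j
    rw [inner_smul_left, inner_smul_right]
    simp only [conj_trivial]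
    by_cases hij : i = j
    · subst hij
      rw [if_pos rfl, (mem_Psi.1 (hmem i)).2, ← mul_assoc, ← mul_inv, hs2]
      norm_num
    · rw [if_neg hij, horth i j hij]
      ring
  · intro y
    simp only [Nat.cast_one, one_mul, smul_add, smul_sub, hcx]
    have e1 : ((1 : ℕ) ≠ 0 ∧ ∃ i, y = ((e i : T) : E) ∨ y = -((e i : T) : E)) ↔ y ∈ Psi Φ := by
      rw [hxP]
      simp
    rw [e1]
    constructor
    · intro hy
      by_cases hyP : y ∈ Psi Φ
      · exact Or.inr hyP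
      left
      obtain ⟨-, c, hc, c', hc', hcc, hyc⟩ := H.long hy hyP
      obtain ⟨i, hi⟩ := (hxP c).1 hc
      obtain ⟨j, hj⟩ := (hxP c').1 hc'
      have hij : i ≠ j := by
        rintro rfl
        rcases hi with hi | hi <;> rcases hj with hj | hj <;>
          simp only [hi, hj, inner_neg_left, inner_neg_right, (mem_Psi.1 (hmem i)).2] at hcc <;> norm_num at hcc
      rcases hi with hi | hi <;> rcases hj with hj | hj
      · exact ⟨i, j, hij, Or.inl (by rw [hyc, hi, hj])⟩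
      · exact ⟨i, j, hij, Or.inr (Or.inl (by rw [hyc, hi, hj]; abel))⟩
      · exact ⟨j, i, hij.symm, Or.inr (Or.inl (by rw [hyc, hi, hj]; abel))⟩
      · exact ⟨i, j, hij, Or.inr (Or.inr (by rw [hyc, hi, hj]; abel))⟩
    · rintro (⟨i, j, hij, hy | hy | hy⟩ | hy)
      · rw [hy]; exact H.add_root (hmem i) (hmem j) (horth i j hij)
      · rw [hy]; exact H.sub_root (hmem i) (hmem j) (horth i j hij)
      · rw [hy]; exact h.toRS.neg_mem (H.add_root (hmem i) (hmem j) (horth i j hij))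
      · exact (mem_Psi.1 hy).1

/-- Large root systems are of type `A`, `B`, `C`, `D`. -/
theorem classical.{u} (R : ℕ) : ∃ M : ℕ, ∀ {E : Type u} [NormedAddCommGroup E] [InnerProductSpace ℝ E]
    (Φ : Finset E), PF.NRS Φ → M ≤ Φ.card →
    ∃ m, R ≤ m ∧ ((∃ u : Fin m → E, FrA Φ m u) ∨ ∃ (e : Fin m → E) (c : ℝ) (d : ℕ), Fr Φ m e c d) := by
  set k0 := max R 10 with hk0
  set r := rf k0 with hr
  refine ⟨(2 * r + 2) ^ 2 + (2 * r + 2) ^ 4 + 2 * R + 4 * R ^ 2 + 1, ?_⟩
  intro E _ _ Φ h hM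
  have hc := card_le_Psi h
  by_cases hex : ∃ v ∈ Psi Φ, (Nb Φ v).Nonempty
  · obtain ⟨v, hv, hu⟩ := hex
    have hrk : r ≤ (Nb Φ v).card := by
      by_contra hlt
      push Not at hlt
      have h1 := card_Psi_le h hv hu
      have h2 : (Psi Φ).card ≤ (2 * r + 2) ^ 2 := by
        rw [pow_two]
        exact h1.trans (Nat.mul_le_mul (by omega) (by omega))
      have h3 : (Psi Φ).card * (Psi Φ).card ≤ (2 * r + 2) ^ 4 := by
        calc (Psi Φ).card * (Psi Φ).card ≤ (2 * r + 2) ^ 2 * (2 * r + 2) ^ 2 := Nat.mul_le_mul h2 h2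
          _ = (2 * r + 2) ^ 4 := by ring
      omega
    obtain ⟨T, hT, hTc, hTp⟩ := exists_clique h hv k0 (Nb Φ v) (Finset.Subset.refl _) hrk
    obtain ⟨m, hm, u, M⟩ := exists_Mx h (hT.trans fun y hy => (mem_Nb.1 hy).1) hTc.ge hTp
    have hRm : R ≤ m := by
      have := le_max_left R 10
      omega
    have h10 : 10 ≤ m := by
      have := le_max_right R 10
      omega
    refine ⟨m, hRm, ?_⟩
    by_cases hno : ∀ x ∈ Psi Φ, ∀ i j, i ≠ j → ¬ Mx.Pr u x i j
    · left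
      exact ⟨u, M.frA h h10 fun x hx => M.caseA h h10 hno hx⟩
    · right
      push Not at hno
      obtain ⟨x, hx, i, j, hij, hp⟩ := hno
      obtain ⟨e, he, hD⟩ := M.caseD h h10 hx hij hp
      obtain ⟨d, hd⟩ := frD h h10 he hD
      exact ⟨e, 1, d, hd⟩
  · have H : ORS Φ := ⟨h, fun g hg => by
      rw [← Finset.not_nonempty_iff_eq_empty]
      exact fun hn => hex ⟨g, hg, hn⟩⟩
    obtain ⟨m, hm, e, c, hF⟩ := frB H
    refine ⟨m, ?_, Or.inr ⟨e, c, 1, hF⟩⟩
    by_contra hlt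
    push Not at hlt
    have h2 : (Psi Φ).card ≤ 2 * R := by omega
    have h3 : (Psi Φ).card * (Psi Φ).card ≤ 4 * R ^ 2 := by
      calc (Psi Φ).card * (Psi Φ).card ≤ (2 * R) * (2 * R) := Nat.mul_le_mul h2 h2
        _ = 4 * R ^ 2 := by ring
    omega

/-- normalisation -/
theorem exists_NRS (h : RS Φ) : ∃ c : ℝ, 0 < c ∧ NRS (PF.sc c Φ) := by
  obtain ⟨m, hm, hmin⟩ := Finset.exists_min_image Φ (fun x => (inner ℝ x x : ℝ)) h.nonempty
  have hm0 : (0 : ℝ) < inner ℝ m m := real_inner_self_pos.2 (h.ne_zero m hm)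
  set c : ℝ := Real.sqrt (2 / inner ℝ m m) with hcdef
  have hc : 0 < c := Real.sqrt_pos.2 (by positivity)
  have hcc : c * c = 2 / inner ℝ m m := Real.mul_self_sqrt (by positivity)
  refine ⟨c, hc, h.sc hc, ?_, c • m, (smul_mem_sc hc).2 hm, ?_⟩
  · intro a ha
    obtain ⟨a', ha', rfl⟩ := mem_sc.1 ha
    rw [inner_smul_left, inner_smul_right]
    simp only [conj_trivial]
    rw [← mul_assoc, hcc, div_mul_eq_mul_div, le_div_iff₀ hm0]
    have := hmin a' ha'
    linarith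
  · rw [inner_smul_left, inner_smul_right]
    simp only [conj_trivial]
    rw [← mul_assoc, hcc]
    field_simp

end TF
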