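import Pool.Agent.Helper21.TF.Defs

/-!
Project TF, block B: many roots give many short roots with pairwise inner product one.
-/

open Module PF

namespace TF

variable {E : Type*} [NormedAddCommGroup E] [InnerProductSpace ℝ E] {Φ : Finset E}

/-- the Ramsey bound -/
def rf : ℕ → ℕ
  | 0 => 0
  | k + 1 => 4 * rf k + 8

theorem orth_card_le {S : Finset E} {v : E} (hv : inner ℝ v v = (2 : ℝ)) (h1 : ∀ y ∈ S, inner ℝ y v = (1 : ℝ))
    (h2 : ∀ y ∈ S, inner ℝ y y = (2 : ℝ)) (ho : ∀ y ∈ S, ∀ z ∈ S, y ≠ z → inner ℝ y z = (0 : ℝ)) : S.card ≤ 4 := by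
  classical
  have e1 : inner ℝ (∑ y ∈ S, y) v = (S.card : ℝ) := by
    rw [sum_inner, Finset.sum_congr rfl h1]
    simp
  have e2 : inner ℝ (∑ y ∈ S, y) (∑ y ∈ S, y) = 2 * (S.card : ℝ) := by
    rw [sum_inner]
    have : ∀ y ∈ S, inner ℝ y (∑ z ∈ S, z) = (2 : ℝ) := by
      intro y hy
      rw [inner_sum, Finset.sum_eq_single_of_mem y hy (fun z hz hzy => ho y hy z hz (Ne.symm hzy)), h2 y hy]
    rw [Finset.sum_congr rfl this]
    simp [mul_comm]
  have e3 : (0 : ℝ) ≤ inner ℝ ((2 : ℝ) • v - ∑ y ∈ S, y) ((2 : ℝ) • v - ∑ y ∈ S, y) := real_inner_self_nonneg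
  rw [inner_sub_left, inner_sub_right, inner_sub_right, inner_smul_left, inner_smul_right, inner_smul_left,
    inner_smul_right, hv, e1, real_inner_comm (∑ y ∈ S, y) v, e1, e2] at e3
  simp only [conj_trivial] at e3
  have e4 : (S.card : ℝ) ≤ 4 := by linarith
  exact_mod_cast e4

/-- Ramsey: many neighbours of a short root contain many short roots with pairwise inner product one. -/
theorem exists_clique (h : NRS Φ) {v : E} (hv : v ∈ Psi Φ) (k : ℕ) : ∀ S ⊆ Nb Φ v, rf k ≤ S.card →
    ∃ T ⊆ S, T.card = k ∧ ∀ y ∈ T, ∀ z ∈ T, y ≠ z → inner ℝ y z = (1 : ℝ) := by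
  classical
  induction k with
  | zero => exact fun S _ _ => ⟨∅, Finset.empty_subset _, Finset.card_empty, by simp⟩
  | succ k ih =>
    intro S hS hc
    have hP : ∀ y ∈ S, y ∈ Psi Φ := fun y hy => (mem_Nb.1 (hS hy)).1
    have hv1 : ∀ y ∈ S, inner ℝ y v = (1 : ℝ) := fun y hy => (mem_Nb.1 (hS hy)).2
    obtain ⟨O, hO, hmax⟩ := Finset.exists_max_image
      (S.powerset.filter fun O => ∀ y ∈ O, ∀ z ∈ O, y ≠ z → inner ℝ y z = (0 : ℝ)) Finset.card ⟨∅, by simp⟩
    rw [Finset.mem_filter, Finset.mem_powerset] at hO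
    obtain ⟨hOS, hOo⟩ := hO
    have hO4 : O.card ≤ 4 := orth_card_le (mem_Psi.1 hv).2 (fun y hy => hv1 y (hOS hy))
      (fun y hy => (mem_Psi.1 (hP y (hOS hy))).2) hOo
    by_cases hex : ∃ o ∈ O, rf k ≤ (S.filter fun y => inner ℝ y o = (1 : ℝ)).card
    · obtain ⟨o, ho, hk⟩ := hex
      obtain ⟨T, hT, hTc, hTp⟩ := ih _ ((Finset.filter_subset _ _).trans hS) hk
      have hoT : o ∉ T := by
        intro h1
        have h2 := (Finset.mem_filter.1 (hT h1)).2
        rw [(mem_Psi.1 (hP o (hOS ho))).2] at h2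
        norm_num at h2
      refine ⟨insert o T, ?_, by rw [Finset.card_insert_of_notMem hoT, hTc], ?_⟩
      · exact Finset.insert_subset (hOS ho) (hT.trans (Finset.filter_subset _ _))
      · intro y hy z hz hyz
        rw [Finset.mem_insert] at hy hz
        rcases hy with rfl | hy <;> rcases hz with rfl | hz
        · exact absurd rfl hyz
        · rw [real_inner_comm]; exact (Finset.mem_filter.1 (hT hz)).2
        · exact (Finset.mem_filter.1 (hT hy)).2
        · exact hTp y hy z hz hyz
    · exfalso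
      push Not at hex
      have hcov : S ⊆ O.biUnion fun o => insert o (insert (v - o) (S.filter fun y => inner ℝ y o = (1 : ℝ))) := by
        intro y hy
        rw [Finset.mem_biUnion]
        by_cases hyO : y ∈ O
        · exact ⟨y, hyO, Finset.mem_insert_self _ _⟩
        · have h1 : ¬ ∀ o ∈ O, inner ℝ y o = (0 : ℝ) := by
            intro h1
            have h2 := hmax (insert y O) (by
              rw [Finset.mem_filter, Finset.mem_powerset]
              refine ⟨Finset.insert_subset hy hOS, ?_⟩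
              intro a ha b hb hab
              rw [Finset.mem_insert] at ha hb
              rcases ha with rfl | ha <;> rcases hb with rfl | hb
              · exact absurd rfl hab
              · exact h1 b hb
              · rw [real_inner_comm]; exact h1 a ha
              · exact hOo a ha b hb hab)
            rw [Finset.card_insert_of_notMem hyO] at h2
            omega
          push Not at h1
          obtain ⟨o, ho, hyo⟩ := h1
          refine ⟨o, ho, ?_⟩
          have hne : y ≠ o := fun e => hyO (e ▸ ho)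
          have hne' : y ≠ -o := by
            rintro e
            have h2 := hv1 y hy
            rw [e, inner_neg_left, hv1 o (hOS ho)] at h2
            norm_num at h2
          rw [Finset.mem_insert, Finset.mem_insert, Finset.mem_filter]
          right
          rcases h.inner_Psi (hP y hy) (hP o (hOS ho)) hne hne' with h2 | h2 | h2
          · exact absurd h2 hyo
          · exact Or.inr ⟨hy, h2⟩
          · left
            have hvy : inner ℝ v y = (1 : ℝ) := by rw [real_inner_comm]; exact hv1 y hy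
            have hvo : inner ℝ v o = (1 : ℝ) := by rw [real_inner_comm]; exact hv1 o (hOS ho)
            have h3 : inner ℝ (v - o - y) (v - o - y) = (0 : ℝ) := by
              simp only [inner_sub_left, inner_sub_right]
              rw [(mem_Psi.1 hv).2, (mem_Psi.1 (hP y hy)).2, (mem_Psi.1 (hP o (hOS ho))).2, hv1 y hy,
                hv1 o (hOS ho), hvy, hvo, h2, real_inner_comm y o, h2]
              norm_num
            rw [inner_self_eq_zero, sub_eq_zero] at h3
            exact h3.symm
      have h1 : S.card ≤ O.card * (rf k + 1) := by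
        refine (Finset.card_le_card hcov).trans (Finset.card_biUnion_le_card_mul _ _ _ ?_)
        intro o ho
        have h2 := hex o ho
        have h3 := Finset.card_insert_le o (insert (v - o) (S.filter fun y => inner ℝ y o = (1 : ℝ)))
        have h4 := Finset.card_insert_le (v - o) (S.filter fun y => inner ℝ y o = (1 : ℝ))
        omega
      have h2 : O.card * (rf k + 1) ≤ 4 * (rf k + 1) := Nat.mul_le_mul_right _ hO4
      have h3 : rf (k + 1) = 4 * rf k + 8 := rfl
      omega

/-- the short roots which are not orthogonal to a given one -/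
theorem card_nonorth (h : NRS Φ) {w : E} (hw : w ∈ Psi Φ) [DecidablePred fun z : E => inner ℝ w z ≠ (0 : ℝ)] :
    ((Psi Φ).filter fun z => inner ℝ w z ≠ (0 : ℝ)).card ≤ 2 * (Nb Φ w).card + 2 := by
  classical
  have h1 : ((Psi Φ).filter fun z => inner ℝ w z ≠ (0 : ℝ)) ⊆
      insert w (insert (-w) (Nb Φ w ∪ (Nb Φ w).image fun z => -z)) := by
    intro z hz
    rw [Finset.mem_filter] at hz
    obtain ⟨hz, hwz⟩ := hz
    rw [Finset.mem_insert, Finset.mem_insert, Finset.mem_union]
    by_cases e1 : z = w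
    · exact Or.inl e1
    by_cases e2 : z = -w
    · exact Or.inr (Or.inl e2)
    refine Or.inr (Or.inr ?_)
    rcases h.inner_Psi hz hw e1 e2 with h2 | h2 | h2
    · exact absurd (by rw [real_inner_comm]; exact h2) hwz
    · exact Or.inl (mem_Nb.2 ⟨hz, h2⟩)
    · refine Or.inr (Finset.mem_image.2 ⟨-z, mem_Nb.2 ⟨h.neg_Psi hz, ?_⟩, neg_neg z⟩)
      rw [inner_neg_left, h2, neg_neg]
  have h2 := Finset.card_le_card h1
  have h3 := Finset.card_insert_le w (insert (-w) (Nb Φ w ∪ (Nb Φ w).image fun z => -z))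
  have h4 := Finset.card_insert_le (-w) (Nb Φ w ∪ (Nb Φ w).image fun z => -z)
  have h5 := Finset.card_union_le (Nb Φ w) ((Nb Φ w).image fun z => -z)
  have h6 : ((Nb Φ w).image fun z => -z).card ≤ (Nb Φ w).card := Finset.card_image_le
  omega

/-- the diameter of the graph of the short roots is at most two -/
theorem diam (h : NRS Φ) {v : E} (hv : v ∈ Psi Φ) (hu : (Nb Φ v).Nonempty) {z : E} (hz : z ∈ Psi Φ) :
    ∃ w ∈ Psi Φ, inner ℝ v w ≠ (0 : ℝ) ∧ inner ℝ w z ≠ (0 : ℝ) := by
  classical
  have h1 := h.irr_Psi hv hu ((Psi Φ).filter fun z => ∃ w ∈ Psi Φ, inner ℝ v w ≠ (0 : ℝ) ∧ inner ℝ w z ≠ (0 : ℝ))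
    (Finset.filter_subset _ _) ?_ ?_
  · rw [← h1, Finset.mem_filter] at hz
    exact hz.2
  · refine ⟨v, Finset.mem_filter.2 ⟨hv, v, hv, ?_, ?_⟩⟩ <;>
    · rw [(mem_Psi.1 hv).2]; norm_num
  · intro z hz z' hz' hn
    rw [Finset.mem_filter] at hz hn
    obtain ⟨hz, w, hw, hvw, hwz⟩ := hz
    by_contra hzz
    have hn' : ∀ w ∈ Psi Φ, inner ℝ v w ≠ (0 : ℝ) → inner ℝ w z' = (0 : ℝ) := by
      intro w hw h2
      by_contra h3
      exact hn ⟨hz', w, hw, h2, h3⟩
    have hvz : inner ℝ v z = (0 : ℝ) := by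
      by_contra h2
      exact hzz (hn' z hz h2)
    have hne : w ≠ z := fun e => hvw (e ▸ hvz)
    have hne' : w ≠ -z := by
      rintro rfl
      rw [inner_neg_right, hvz, neg_zero] at hvw
      exact hvw rfl
    have hwz' := hn' w hw hvw
    rcases h.inner_Psi hw hz hne hne' with h2 | h2 | h2
    · exact hwz h2
    · have h3 := hn' _ (h.sub_Psi hw hz h2) (by rw [inner_sub_right, hvz, sub_zero]; exact hvw)
      rw [inner_sub_left, hwz', zero_sub, neg_eq_zero] at h3
      exact hzz h3
    · have h3 := hn' _ (h.add_Psi hw hz h2) (by rw [inner_add_right, hvz, add_zero]; exact hvw)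
      rw [inner_add_left, hwz', zero_add] at h3
      exact hzz h3

theorem card_Psi_le (h : NRS Φ) {v : E} (hv : v ∈ Psi Φ) (hu : (Nb Φ v).Nonempty) :
    (Psi Φ).card ≤ (2 * (Nb Φ v).card + 2) * (2 * (Nb Φ v).card + 2) := by
  classical
  have hcov : Psi Φ ⊆ ((Psi Φ).filter fun w => inner ℝ v w ≠ (0 : ℝ)).biUnion fun w =>
      (Psi Φ).filter fun z => inner ℝ w z ≠ (0 : ℝ) := by
    intro z hz
    obtain ⟨w, hw, h1, h2⟩ := diam h hv hu hz
    exact Finset.mem_biUnion.2 ⟨w, Finset.mem_filter.2 ⟨hw, h1⟩, Finset.mem_filter.2 ⟨hz, h2⟩⟩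
  refine (Finset.card_le_card hcov).trans ((Finset.card_biUnion_le_card_mul _ _ (2 * (Nb Φ v).card + 2) ?_).trans
    (Nat.mul_le_mul_right _ (card_nonorth h hv)))
  intro w hw
  have hw' := (Finset.mem_filter.1 hw).1
  rw [← h.card_Nb hv hu hw']
  exact card_nonorth h hw'

/-- the number of roots in terms of the number of short roots -/
theorem card_le_Psi (h : NRS Φ) : Φ.card ≤ (Psi Φ).card + (Psi Φ).card * (Psi Φ).card := by
  classical
  have hcov : Φ ⊆ Psi Φ ∪ (Psi Φ ×ˢ Psi Φ).image fun q => q.1 + q.2 := by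
    intro b hb
    rw [Finset.mem_union]
    obtain ⟨g, hg, hbg⟩ := h.exists_short hb
    rcases h.length hb with h2 | h4 | h6
    · exact Or.inl (mem_Psi.2 ⟨hb, h2⟩)
    · right
      have h3 : inner ℝ b g = (2 : ℝ) := by
        rcases h.four hb h4 hg with h3 | h3 | h3
        · rw [h3] at hbg; norm_num at hbg
        · exact h3
        · rw [h3] at hbg; norm_num at hbg
      exact Finset.mem_image.2 ⟨(b - g, g), Finset.mem_product.2 ⟨(h.four_sub hb h4 hg h3).1, hg⟩,
        sub_add_cancel b g⟩
    · right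
      have h3 : inner ℝ b g = (3 : ℝ) := by
        rcases h.six hb h6 hg with h3 | h3 | h3
        · rw [h3] at hbg; norm_num at hbg
        · exact h3
        · rw [h3] at hbg; norm_num at hbg
      exact Finset.mem_image.2 ⟨(b - g, g), Finset.mem_product.2 ⟨(h.six_sub hb h6 hg h3).1, hg⟩,
        sub_add_cancel b g⟩
  refine (Finset.card_le_card hcov).trans ((Finset.card_union_le _ _).trans (Nat.add_le_add_left ?_ _))
  exact Finset.card_image_le.trans (by rw [Finset.card_product])

end TF
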