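import Pool.Agent.Helper3.PF.Comb

/-!
Project TF (MP_b8862a_ag), block B: the classical root systems in coordinates.
-/

open Module

namespace TF

variable {E : Type*} [NormedAddCommGroup E] [InnerProductSpace ℝ E]

/-- `Φ` is of type `A_(m-1)`: the differences of `m` vectors which form a regular simplex with centre zero. -/
def TyA (m : ℕ) (Φ : Finset E) : Prop :=
  ∃ u : Fin m → E, (∀ i j, inner ℝ (u i) (u j) = (if i = j then (1 : ℝ) else 0) - 1 / m) ∧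
    ∀ y, y ∈ Φ ↔ ∃ i j, i ≠ j ∧ y = u i - u j

/-- `Φ` is of type `B_m`. -/
def TyB (m : ℕ) (Φ : Finset E) : Prop :=
  ∃ e : Fin m → E, Orthonormal ℝ e ∧
    ∀ y, y ∈ Φ ↔ (∃ i, y = e i ∨ y = -e i) ∨
      ∃ i j, i ≠ j ∧ (y = e i + e j ∨ y = e i - e j ∨ y = -(e i + e j))

/-- `Φ` is of type `C_m`. -/
def TyC (m : ℕ) (Φ : Finset E) : Prop :=
  ∃ e : Fin m → E, Orthonormal ℝ e ∧
    ∀ y, y ∈ Φ ↔ (∃ i, y = (2 : ℝ) • e i ∨ y = -((2 : ℝ) • e i)) ∨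
      ∃ i j, i ≠ j ∧ (y = e i + e j ∨ y = e i - e j ∨ y = -(e i + e j))

/-- `Φ` is of type `D_m`. -/
def TyD (m : ℕ) (Φ : Finset E) : Prop :=
  ∃ e : Fin m → E, Orthonormal ℝ e ∧
    ∀ y, y ∈ Φ ↔ ∃ i j, i ≠ j ∧ (y = e i + e j ∨ y = e i - e j ∨ y = -(e i + e j))

end TF
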