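import Pool.Agent.Helper21.TF.Cliq
import Pool.Agent.Helper27.TF.Defs

/-!
Project TF, block B: a maximal set of short roots with pairwise inner product one and its simplex.
-/

open Module PF

namespace TF

variable {E : Type*} [NormedAddCommGroup E] [InnerProductSpace ℝ E] {Φ : Finset E}

/-- A simplex of maximal dimension all of whose edges are short roots. -/
structure Mx (Φ : Finset E) (m : ℕ) (u : Fin m → E) : Prop where
  gram : ∀ i j, inner ℝ (u i) (u j) = (if i = j then (1 : ℝ) else 0) - 1 / m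
  mem : ∀ i j, i ≠ j → u i - u j ∈ Psi Φ
  max : ∀ x ∈ Psi Φ, ∀ i, ¬ ∀ j, j ≠ i → inner ℝ x (u i - u j) = (1 : ℝ)

/-- a family with the Gram matrix of a simplex -/
theorem exists_simplex {k : ℕ} (v : Fin k → E) (hv : ∀ i j, inner ℝ (v i) (v j) = (if i = j then (2 : ℝ) else 1)) :
    ∃ u : Fin (k + 1) → E, (∀ i j, inner ℝ (u i) (u j) = (if i = j then (1 : ℝ) else 0) - 1 / ((k + 1 : ℕ) : ℝ)) ∧
      ∀ i : Fin k, u i.succ - u 0 = v i := by
  have hk : ((k + 1 : ℕ) : ℝ) ≠ 0 := by positivity
  set s : E := ∑ i, v i with hs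
  have h1 : ∀ j, inner ℝ s (v j) = ((k + 1 : ℕ) : ℝ) := by
    intro j
    rw [hs, sum_inner]
    simp only [hv]
    have : ∀ i : Fin k, (if i = j then (2 : ℝ) else 1) = 1 + if i = j then 1 else 0 := by
      intro i
      split_ifs <;> norm_num
    rw [Finset.sum_congr rfl fun i _ => this i, Finset.sum_add_distrib]
    simp
  have h2 : inner ℝ s s = (k : ℝ) * ((k + 1 : ℕ) : ℝ) := by
    conv_lhs => rw [hs, inner_sum]
    rw [Finset.sum_congr rfl fun i _ => h1 i]
    simp
    ring
  set w : E := -((1 / ((k + 1 : ℕ) : ℝ)) • s) with hw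
  have h3 : ∀ j, inner ℝ w (v j) = (-1 : ℝ) := by
    intro j
    rw [hw, inner_neg_left, inner_smul_left, h1]
    simp only [conj_trivial]
    field_simp
  have h4 : inner ℝ w w = (1 : ℝ) - 1 / ((k + 1 : ℕ) : ℝ) := by
    rw [hw, inner_neg_left, inner_neg_right, inner_smul_left, inner_smul_right, h2, neg_neg]
    simp only [conj_trivial]
    field_simp
    push_cast
    ring
  have h3' : ∀ j, inner ℝ (v j) w = (-1 : ℝ) := fun j => by rw [real_inner_comm]; exact h3 j
  refine ⟨Fin.cons w fun i => v i + w, ?_, ?_⟩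
  · intro i j
    refine Fin.cases ?_ (fun i' => ?_) i <;> refine Fin.cases ?_ (fun j' => ?_) j
    · simp only [Fin.cons_zero, if_true]
      exact h4
    · simp only [Fin.cons_zero, Fin.cons_succ]
      rw [if_neg (Fin.succ_ne_zero j').symm, inner_add_right, h3, h4]
      ring
    · simp only [Fin.cons_zero, Fin.cons_succ]
      rw [if_neg (Fin.succ_ne_zero i'), inner_add_left, h3', h4]
      ring
    · simp only [Fin.cons_succ, Fin.succ_inj]
      rw [inner_add_left, inner_add_right, inner_add_right, hv, h3, h3', h4]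
      split_ifs <;> ring
  · intro i
    simp only [Fin.cons_zero, Fin.cons_succ]
    abel

theorem exists_Mx (h : NRS Φ) {k : ℕ} {T : Finset E} (hT : T ⊆ Psi Φ) (hk : k ≤ T.card)
    (hp : ∀ y ∈ T, ∀ z ∈ T, y ≠ z → inner ℝ y z = (1 : ℝ)) :
    ∃ m, k + 1 ≤ m ∧ ∃ u : Fin m → E, Mx Φ m u := by
  classical
  obtain ⟨S, hS, hmax⟩ := Finset.exists_max_image
    ((Psi Φ).powerset.filter fun O => ∀ y ∈ O, ∀ z ∈ O, y ≠ z → inner ℝ y z = (1 : ℝ)) Finset.card ⟨∅, by simp⟩
  have hkS : k ≤ S.card := hk.trans (hmax T (by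
    rw [Finset.mem_filter, Finset.mem_powerset]
    exact ⟨hT, hp⟩))
  rw [Finset.mem_filter, Finset.mem_powerset] at hS
  obtain ⟨hSP, hSp⟩ := hS
  set v : Fin S.card → E := fun i => (S.equivFin.symm i : E) with hvdef
  have hvS : ∀ i, v i ∈ S := fun i => (S.equivFin.symm i).2
  have hvinj : Function.Injective v := fun i j hij => S.equivFin.symm.injective (Subtype.ext hij)
  have hv : ∀ i j, inner ℝ (v i) (v j) = (if i = j then (2 : ℝ) else 1) := by
    intro i j
    by_cases hij : i = j
    · rw [if_pos hij, hij]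
      exact (mem_Psi.1 (hSP (hvS j))).2
    · rw [if_neg hij]
      exact hSp _ (hvS i) _ (hvS j) fun e => hij (hvinj e)
  obtain ⟨u, hu, huv⟩ := exists_simplex v hv
  have hmem : ∀ i j, i ≠ j → u i - u j ∈ Psi Φ := by
    intro i j hij
    have h0 : ∀ i' : Fin S.card, v i' ∈ Psi Φ := fun i' => hSP (hvS i')
    rcases Fin.eq_zero_or_eq_succ i with rfl | ⟨i', rfl⟩ <;> rcases Fin.eq_zero_or_eq_succ j with rfl | ⟨j', rfl⟩
    · exact absurd rfl hij
    · have h1 := h.neg_Psi (h0 j')
      rw [← huv j'] at h1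
      rwa [neg_sub] at h1
    · rw [huv]
      exact h0 i'
    · have h1 : inner ℝ (v i') (v j') = (1 : ℝ) := by
        rw [hv, if_neg fun e => hij (by rw [e])]
      have h2 := h.sub_Psi (h0 i') (h0 j') h1
      have h3 : u i'.succ - u j'.succ = v i' - v j' := by
        rw [← huv i', ← huv j']
        abel
      rw [h3]
      exact h2
  refine ⟨S.card + 1, by omega, u, hu, hmem, ?_⟩
  intro x hx i hxi
  -- the set of the `u i - u j` and `x`
  have hinj : Function.Injective fun j => u i - u j := by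
    intro j j' hjj
    simp only [sub_right_inj] at hjj
    by_contra hne
    have h1 := hu j j'
    have h2 := hu j' j'
    rw [hjj, h2] at h1
    rw [if_pos rfl, if_neg hne] at h1
    linarith
  set T' : Finset E := (Finset.univ.erase i).image fun j => u i - u j with hT'
  have hT'c : T'.card = S.card := by
    rw [hT', Finset.card_image_of_injective _ hinj, Finset.card_erase_of_mem (Finset.mem_univ i), Finset.card_univ,
      Fintype.card_fin]
    omega
  have hin : ∀ j j', j ≠ i → j' ≠ i → inner ℝ (u i - u j) (u i - u j') = (if j = j' then (2 : ℝ) else 1) := by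
    intro j j' hj hj'
    rw [inner_sub_left, inner_sub_right, inner_sub_right, hu, hu, hu, hu, if_pos rfl, if_neg hj, if_neg hj'.symm]
    split_ifs <;> ring
  have hxT : x ∉ T' := by
    intro h1
    rw [hT', Finset.mem_image] at h1
    obtain ⟨j, hj, rfl⟩ := h1
    have hj' := Finset.ne_of_mem_erase hj
    have h2 := hxi j hj'
    rw [hin j j hj' hj', if_pos rfl] at h2
    norm_num at h2
  have h1 := hmax (insert x T') (by
    rw [Finset.mem_filter, Finset.mem_powerset]
    constructor
    · refine Finset.insert_subset hx ?_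
      intro y hy
      rw [hT', Finset.mem_image] at hy
      obtain ⟨j, hj, rfl⟩ := hy
      exact hmem i j (Finset.ne_of_mem_erase hj).symm
    · intro y hy z hz hyz
      rw [Finset.mem_insert, hT', Finset.mem_image] at hy hz
      rcases hy with rfl | ⟨j, hj, rfl⟩ <;> rcases hz with rfl | ⟨j', hj', rfl⟩
      · exact absurd rfl hyz
      · exact hxi j' (Finset.ne_of_mem_erase hj')
      · rw [real_inner_comm]; exact hxi j (Finset.ne_of_mem_erase hj)
      · rw [hin j j' (Finset.ne_of_mem_erase hj) (Finset.ne_of_mem_erase hj'), if_neg]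
        rintro rfl
        exact hyz rfl)
  rw [Finset.card_insert_of_notMem hxT, hT'c] at h1
  omega

namespace Mx

variable {m : ℕ} {u : Fin m → E} (M : Mx Φ m u) (h : NRS Φ)
include M

theorem sum_zero : ∑ i, u i = 0 := by
  rcases Nat.eq_zero_or_pos m with rfl | hm
  · simp
  have hm' : (m : ℝ) ≠ 0 := by positivity
  rw [← inner_self_eq_zero (𝕜 := ℝ), sum_inner]
  have : ∀ i : Fin m, inner ℝ (u i) (∑ j, u j) = (0 : ℝ) := by
    intro i
    rw [inner_sum]
    simp only [M.gram]
    rw [Finset.sum_sub_distrib]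
    simp
    field_simp
    simp
  rw [Finset.sum_congr rfl fun i _ => this i]
  simp

theorem inner_sub (i j k : Fin m) : inner ℝ (u i - u j) (u k) =
    (if i = k then (1 : ℝ) else 0) - (if j = k then (1 : ℝ) else 0) := by
  rw [inner_sub_left, M.gram, M.gram]
  ring

theorem sum_inner_zero (x : E) : ∑ i, inner ℝ x (u i) = (0 : ℝ) := by
  rw [← inner_sum, M.sum_zero, inner_zero_right]

/-- the distance from the span of the simplex -/
theorem bessel (x : E) : inner ℝ (x - ∑ i, (inner ℝ x (u i) : ℝ) • u i) (x - ∑ i, (inner ℝ x (u i) : ℝ) • u i) =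
    (inner ℝ x x : ℝ) - ∑ i, (inner ℝ x (u i) : ℝ) ^ 2 := by
  have h1 : inner ℝ (∑ i, (inner ℝ x (u i) : ℝ) • u i) x = ∑ i, (inner ℝ x (u i) : ℝ) ^ 2 := by
    rw [sum_inner]
    refine Finset.sum_congr rfl fun i _ => ?_
    rw [inner_smul_left, real_inner_comm]
    simp only [conj_trivial]
    ring
  have h2 : inner ℝ (∑ i, (inner ℝ x (u i) : ℝ) • u i) (∑ i, (inner ℝ x (u i) : ℝ) • u i) =
      ∑ i, (inner ℝ x (u i) : ℝ) ^ 2 := by
    rw [sum_inner]
    refine Finset.sum_congr rfl fun i _ => ?_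
    rw [inner_smul_left, inner_sum]
    simp only [conj_trivial, inner_smul_right, M.gram, mul_sub, mul_ite, mul_one, mul_zero]
    rw [Finset.sum_sub_distrib, ← Finset.sum_mul, M.sum_inner_zero]
    simp
    ring
  have h3 : inner ℝ x (∑ i, (inner ℝ x (u i) : ℝ) • u i) = ∑ i, (inner ℝ x (u i) : ℝ) ^ 2 := by
    rw [real_inner_comm]
    exact h1
  rw [inner_sub_left, inner_sub_right, inner_sub_right, h3, h1, h2]
  ring

include h

theorem ten_le (hm : 10 ≤ m) {x : E} (hx : x ∈ Psi Φ) (hne : ∀ i j, i ≠ j → x ≠ u i - u j) :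
    ∃ S : Finset (Fin m), (∀ i, inner ℝ x (u i) = (if i ∈ S then (1 : ℝ) else 0) - S.card / m) ∧
      (S.card = 0 ∨ S.card = 2 ∨ S.card + 2 = m) := by
  classical
  have hm0 : (0 : ℝ) < m := by positivity
  have hm0' : (m : ℝ) ≠ 0 := hm0.ne'
  -- the differences
  have hd : ∀ i j, inner ℝ x (u i) - inner ℝ x (u j) = (0 : ℝ) ∨ inner ℝ x (u i) - inner ℝ x (u j) = (1 : ℝ) ∨
      inner ℝ x (u i) - inner ℝ x (u j) = (-1 : ℝ) := by
    intro i j
    by_cases hij : i = j
    · left; rw [hij, sub_self]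
    · have h1 := h.inner_Psi hx (M.mem i j hij) (hne i j hij) (by
        rw [neg_sub]
        exact hne j i (Ne.symm hij))
      rw [inner_sub_right] at h1
      exact h1
  have hne0 : (Finset.univ : Finset (Fin m)).Nonempty := ⟨⟨0, by omega⟩, Finset.mem_univ _⟩
  obtain ⟨i0, -, hi0⟩ := Finset.exists_min_image Finset.univ (fun i => (inner ℝ x (u i) : ℝ)) hne0
  set S : Finset (Fin m) := Finset.univ.filter fun i => inner ℝ x (u i) - inner ℝ x (u i0) = (1 : ℝ) with hS
  set c : ℝ := inner ℝ x (u i0) with hc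
  have ha : ∀ i, inner ℝ x (u i) = (if i ∈ S then (1 : ℝ) else 0) + c := by
    intro i
    by_cases hi : i ∈ S
    · rw [if_pos hi]
      rw [hS, Finset.mem_filter] at hi
      linarith [hi.2]
    · rw [if_neg hi]
      rcases hd i i0 with h1 | h1 | h1
      · linarith
      · exact absurd (Finset.mem_filter.2 ⟨Finset.mem_univ i, h1⟩) hi
      · have := hi0 i (Finset.mem_univ i)
        linarith
  have hsum : (S.card : ℝ) + m * c = 0 := by
    have h1 := M.sum_inner_zero x
    simp only [ha] at h1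
    rw [Finset.sum_add_distrib] at h1
    simpa using h1
  have hcS : c = -(S.card / m) := by
    field_simp
    linarith
  have hprof : ∀ i, inner ℝ x (u i) = (if i ∈ S then (1 : ℝ) else 0) - S.card / m := by
    intro i
    rw [ha, hcS]
    ring
  have hi0S : i0 ∉ S := by
    intro h1
    rw [hS, Finset.mem_filter, sub_self] at h1
    exact zero_ne_one h1.2
  have hlt : S.card < m := by
    have h1 : S.card < (Finset.univ : Finset (Fin m)).card :=
      Finset.card_lt_card ⟨Finset.subset_univ _, fun hh => hi0S (hh (Finset.mem_univ i0))⟩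
    rwa [Finset.card_univ, Fintype.card_fin] at h1
  -- Bessel
  have hb := M.bessel x
  have hb0 : (0 : ℝ) ≤ inner ℝ x x - ∑ i, (inner ℝ x (u i) : ℝ) ^ 2 := by
    rw [← hb]
    exact real_inner_self_nonneg
  rw [(mem_Psi.1 hx).2] at hb0
  have hsq : ∑ i, (inner ℝ x (u i) : ℝ) ^ 2 = (S.card : ℝ) * (m - S.card) / m := by
    simp only [hprof]
    have h1 : ∀ i : Fin m, ((if i ∈ S then (1 : ℝ) else 0) - S.card / m) ^ 2 =
        (if i ∈ S then (1 : ℝ) else 0) * (1 - 2 * (S.card / m)) + (S.card / m) ^ 2 := by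
      intro i
      split_ifs <;> ring
    have h2 : ∑ i : Fin m, (if i ∈ S then (1 : ℝ) else 0) = S.card := by
      rw [Finset.sum_ite_mem, Finset.univ_inter, Finset.sum_const, nsmul_eq_mul, mul_one]
    rw [Finset.sum_congr rfl fun i _ => h1 i, Finset.sum_add_distrib, ← Finset.sum_mul, h2, Finset.sum_const,
      Finset.card_univ, Fintype.card_fin, nsmul_eq_mul]
    generalize (S.card : ℝ) = s
    have e1 : (m : ℝ) * (s / m) ^ 2 = s * (s / m) := by
      rw [pow_two, ← mul_assoc, mul_div_cancel₀ _ hm0']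
    have e2 : s * (m - s) / m = s - s * (s / m) := by
      rw [mul_sub, sub_div, mul_div_assoc, div_self hm0', mul_one, mul_div_assoc]
    rw [e1, e2]
    ring
  rw [hsq] at hb0
  have hle : (S.card : ℝ) * (m - S.card) ≤ 2 * m := by
    have h1 : (S.card : ℝ) * (m - S.card) / m ≤ 2 := by linarith
    rwa [div_le_iff₀ hm0] at h1
  refine ⟨S, hprof, ?_⟩
  -- no single element
  have hone : ∀ y ∈ Psi Φ, ∀ i, ¬ ∀ j, j ≠ i → inner ℝ y (u i) - inner ℝ y (u j) = (1 : ℝ) := by
    intro y hy i hh
    refine M.max y hy i fun j hj => ?_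
    rw [inner_sub_right]
    exact hh j hj
  have h1 : S.card ≠ 1 := by
    intro h1
    obtain ⟨i, hi⟩ := Finset.card_eq_one.1 h1
    refine hone x hx i fun j hj => ?_
    rw [hprof, hprof, hi, if_pos (Finset.mem_singleton_self i), if_neg (by simpa using hj)]
    ring
  have h2 : S.card + 1 ≠ m := by
    intro h2
    have h3 : Sᶜ.card = 1 := by
      rw [Finset.card_compl, Fintype.card_fin]
      omega
    obtain ⟨i, hi⟩ := Finset.card_eq_one.1 h3
    have h4 : ∀ j, j ∈ S ↔ j ≠ i := by
      intro j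
      rw [← not_iff_not, ← Finset.mem_compl, hi, Finset.mem_singleton, not_not]
    refine hone (-x) (h.neg_Psi hx) i fun j hj => ?_
    rw [inner_neg_left, inner_neg_left, hprof, hprof, if_neg (by rw [h4]; simp), if_pos ((h4 j).2 hj)]
    ring
  by_contra hcon
  push Not at hcon
  obtain ⟨c0, c2, c3⟩ := hcon
  have h5 : 3 ≤ S.card := by omega
  have h6 : S.card + 3 ≤ m := by omega
  have h5' : (3 : ℝ) ≤ S.card := by exact_mod_cast h5
  have h6' : (S.card : ℝ) + 3 ≤ m := by exact_mod_cast h6
  have hm' : (10 : ℝ) ≤ m := by exact_mod_cast hm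
  nlinarith

end Mx

end TF
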