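import Pool.Agent.Helper21.TF.Frame

/-!
Project TF, block B: the short roots are those of type `A` or those of type `D`.
-/

set_option linter.unusedSectionVars false

open Module PF

namespace TF

variable {E : Type*} [NormedAddCommGroup E] [InnerProductSpace ℝ E] {Φ : Finset E}

namespace Mx

/-- `x` has the profile of the pair `i`, `j` -/
def Pr {m : ℕ} (u : Fin m → E) (x : E) (i j : Fin m) : Prop :=
  ∀ t, inner ℝ x (u t) = (if t = i ∨ t = j then (1 : ℝ) else 0) - 2 / m

theorem Pr.symm {m : ℕ} {u : Fin m → E} {x : E} {i j : Fin m} (hx : Pr u x i j) : Pr u x j i := by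
  intro t
  rw [hx t]
  simp only [or_comm]

variable {m : ℕ} {u : Fin m → E} (M : Mx Φ m u) (h : NRS Φ) (hm : 10 ≤ m)
include M h hm

theorem unique {x y : E} (hx : x ∈ Psi Φ) (hy : y ∈ Psi Φ) {i j : Fin m} (hij : i ≠ j) (h1 : Pr u x i j)
    (h2 : Pr u y i j) : x = y := by
  classical
  have hm0 : (0 : ℝ) < m := by positivity
  have hm' : (10 : ℝ) ≤ m := by exact_mod_cast hm
  have hsq : ∀ z, z ∈ Psi Φ → Pr u z i j → inner ℝ (z - ∑ t, (inner ℝ z (u t) : ℝ) • u t)
      (z - ∑ t, (inner ℝ z (u t) : ℝ) • u t) = (4 : ℝ) / m := by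
    intro z hz hp
    rw [M.bessel, (mem_Psi.1 hz).2]
    have e1 : ∀ t : Fin m, (inner ℝ z (u t) : ℝ) ^ 2 =
        (if t ∈ ({i, j} : Finset (Fin m)) then (1 : ℝ) else 0) * (1 - 4 / m) + 4 / m ^ 2 := by
      intro t
      rw [hp t]
      simp only [Finset.mem_insert, Finset.mem_singleton]
      split_ifs
      · field_simp
        ring
      · field_simp
        ring
    have e2 : ∑ t : Fin m, (if t ∈ ({i, j} : Finset (Fin m)) then (1 : ℝ) else 0) = 2 := by
      rw [Finset.sum_ite_mem, Finset.univ_inter, Finset.sum_const, Finset.card_pair hij, nsmul_eq_mul, mul_one]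
      norm_num
    rw [Finset.sum_congr rfl fun t _ => e1 t, Finset.sum_add_distrib, ← Finset.sum_mul, e2, Finset.sum_const,
      Finset.card_univ, Fintype.card_fin, nsmul_eq_mul]
    field_simp
    ring
  have hs : ∑ t, (inner ℝ x (u t) : ℝ) • u t = ∑ t, (inner ℝ y (u t) : ℝ) • u t :=
    Finset.sum_congr rfl fun t _ => by rw [h1 t, h2 t]
  have ex := hsq x hx h1
  have ey := hsq y hy h2
  rw [← hs] at ey
  set p : E := ∑ t, (inner ℝ x (u t) : ℝ) • u t with hp
  -- parallelogram
  have hpar : ∀ a b : E, inner ℝ (a - b) (a - b) ≤ 2 * (inner ℝ a a : ℝ) + 2 * (inner ℝ b b : ℝ) := by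
    intro a b
    have e4 : (0 : ℝ) ≤ inner ℝ (a + b) (a + b) := real_inner_self_nonneg
    rw [inner_add_left, inner_add_right, inner_add_right] at e4
    rw [_root_.inner_sub_left, _root_.inner_sub_right, _root_.inner_sub_right]
    linarith
  have e3 : inner ℝ (x - y) (x - y) ≤ 2 * (inner ℝ (x - p) (x - p) : ℝ) + 2 * (inner ℝ (y - p) (y - p) : ℝ) := by
    have e5 : x - y = (x - p) - (y - p) := by abel
    rw [e5]
    exact hpar _ _
  rw [ex, ey] at e3
  by_contra hne
  have e6 : inner ℝ (x - y) (x - y) = 4 - 2 * (inner ℝ x y : ℝ) := by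
    rw [_root_.inner_sub_left, _root_.inner_sub_right, _root_.inner_sub_right, (mem_Psi.1 hx).2, (mem_Psi.1 hy).2,
      real_inner_comm x y]
    ring
  have e7 : (4 : ℝ) / m ≤ 4 / 10 := by
    apply div_le_div_of_nonneg_left <;> linarith
  have e8 : (inner ℝ x y : ℝ) ≤ 1 := by
    by_cases e9 : x = -y
    · rw [e9, inner_neg_left, (mem_Psi.1 hy).2]; norm_num
    · rcases h.inner_Psi hx hy hne e9 with e | e | e <;> rw [e] <;> norm_num
  linarith

/-- all short roots which are not edges of the simplex -/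
theorem prof {x : E} (hx : x ∈ Psi Φ) (hne : ∀ i j, i ≠ j → x ≠ u i - u j) :
    (∀ t, inner ℝ x (u t) = (0 : ℝ)) ∨ ∃ i j, i ≠ j ∧ (Pr u x i j ∨ Pr u (-x) i j) := by
  classical
  have hm0 : (0 : ℝ) < m := by positivity
  obtain ⟨S, hS, hc⟩ := M.ten_le h hm hx hne
  rcases hc with hc | hc | hc
  · left
    intro t
    rw [Finset.card_eq_zero] at hc
    rw [hS t, hc]
    simp
  · right
    obtain ⟨i, j, hij, hSij⟩ := Finset.card_eq_two.1 hc
    refine ⟨i, j, hij, Or.inl fun t => ?_⟩
    rw [hS t, hc, hSij]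
    simp
  · right
    have h1 : Sᶜ.card = 2 := by
      rw [Finset.card_compl, Fintype.card_fin]
      omega
    obtain ⟨i, j, hij, hSij⟩ := Finset.card_eq_two.1 h1
    refine ⟨i, j, hij, Or.inr fun t => ?_⟩
    have h2 : (t = i ∨ t = j) ↔ t ∉ S := by
      rw [← Finset.mem_compl, hSij]
      simp
    have h3 : (S.card : ℝ) = m - 2 := by
      have : ((S.card + 2 : ℕ) : ℝ) = m := by exact_mod_cast congrArg (Nat.cast (R := ℝ)) hc
      push_cast at this
      linarith
    rw [inner_neg_left, hS t, h3]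
    by_cases ht : t ∈ S
    · rw [if_pos ht, if_neg (by rw [h2]; simpa using ht)]
      field_simp
      ring
    · rw [if_neg ht, if_pos (h2.2 ht)]
      field_simp
      ring

theorem nb_nonempty : ∃ g ∈ Psi Φ, (Nb Φ g).Nonempty := by
  have i0 : Fin m := ⟨0, by omega⟩
  have h01 : (⟨0, by omega⟩ : Fin m) ≠ ⟨1, by omega⟩ := by simp
  have h02 : (⟨0, by omega⟩ : Fin m) ≠ ⟨2, by omega⟩ := by simp
  have h12 : (⟨1, by omega⟩ : Fin m) ≠ ⟨2, by omega⟩ := by simp
  refine ⟨_, M.mem _ _ h01, u ⟨0, by omega⟩ - u ⟨2, by omega⟩, mem_Nb.2 ⟨M.mem _ _ h02, ?_⟩⟩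
  rw [_root_.inner_sub_right, M.inner_sub, M.inner_sub, if_pos rfl, if_neg h02.symm, if_neg h01, if_neg h12.symm]
  norm_num

/-- the first case: no other short root -/
theorem caseA (hno : ∀ x ∈ Psi Φ, ∀ i j, i ≠ j → ¬ Pr u x i j) {x : E} (hx : x ∈ Psi Φ) :
    ∃ i j, i ≠ j ∧ x = u i - u j := by
  classical
  obtain ⟨g, hg, hu⟩ := M.nb_nonempty h hm
  have h1 := h.irr_Psi hg hu ((Psi Φ).filter fun x => ∃ i j, i ≠ j ∧ x = u i - u j) (Finset.filter_subset _ _) ?_ ?_
  · rw [← h1, Finset.mem_filter] at hx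
    exact hx.2
  · have h01 : (⟨0, by omega⟩ : Fin m) ≠ ⟨1, by omega⟩ := by simp
    exact ⟨_, Finset.mem_filter.2 ⟨M.mem _ _ h01, _, _, h01, rfl⟩⟩
  · intro a ha b hb hbn
    rw [Finset.mem_filter] at ha hbn
    obtain ⟨-, i, j, hij, rfl⟩ := ha
    rcases M.prof h hm hb (fun i j hij e => hbn ⟨hb, i, j, hij, e⟩) with h2 | ⟨i', j', hij', h2 | h2⟩
    · rw [_root_.inner_sub_left, real_inner_comm, h2, real_inner_comm, h2, sub_zero]
    · exact absurd h2 (hno b hb i' j' hij')
    · exact absurd h2 (hno (-b) (h.neg_Psi hb) i' j' hij')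

theorem pr_sub {x : E} {i j l : Fin m} (hij : i ≠ j) (hil : i ≠ l) (hjl : j ≠ l) (h1 : Pr u x i j) :
    Pr u (x - (u j - u l)) i l := by
  intro t
  rw [_root_.inner_sub_left, h1 t, M.inner_sub]
  have g1 : (t = i ∨ t = j) ↔ (i = t ∨ j = t) := by constructor <;> (rintro (e | e) <;> simp [e])
  have g2 : (t = i ∨ t = l) ↔ (i = t ∨ l = t) := by constructor <;> (rintro (e | e) <;> simp [e])
  simp only [g1, g2]
  by_cases e1 : i = t
  · subst e1
    simp [hij.symm, hil.symm]
  · by_cases e2 : j = t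
    · subst e2
      simp [e1, Ne.symm hjl]
    · by_cases e3 : l = t
      · subst e3
        simp [e1, e2]
        ring
      · simp [e1, e2, e3]

/-- one pair gives all pairs -/
theorem step {x : E} (hx : x ∈ Psi Φ) {i j l : Fin m} (hij : i ≠ j) (hil : i ≠ l) (h1 : Pr u x i j) :
    ∃ y ∈ Psi Φ, Pr u y i l := by
  by_cases hjl : j = l
  · exact ⟨x, hx, hjl ▸ h1⟩
  have h2 : inner ℝ x (u j - u l) = (1 : ℝ) := by
    rw [_root_.inner_sub_right, h1 j, h1 l, if_pos (Or.inr rfl), if_neg (by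
      rintro (e | e)
      · exact hil e.symm
      · exact hjl e.symm)]
    ring
  exact ⟨x - (u j - u l), h.sub_Psi hx (M.mem j l hjl) h2, M.pr_sub h hm hij hil hjl h1⟩

theorem all_pairs {x : E} (hx : x ∈ Psi Φ) {i j : Fin m} (hij : i ≠ j) (h1 : Pr u x i j) {k l : Fin m}
    (hkl : k ≠ l) : ∃ y ∈ Psi Φ, Pr u y k l := by
  by_cases hik : i = k
  · subst hik
    exact M.step h hm hx hij hkl h1
  · obtain ⟨y, hy, h2⟩ := M.step h hm hx hij hik h1
    exact M.step h hm hy (Ne.symm hik) hkl h2.symm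

/-- the second case: type `D` -/
theorem caseD {x0 : E} (hx0 : x0 ∈ Psi Φ) {i0 j0 : Fin m} (hij0 : i0 ≠ j0) (h0 : Pr u x0 i0 j0) :
    ∃ e : Fin m → E, Orthonormal ℝ e ∧
      ∀ y, y ∈ Psi Φ ↔ ∃ i j, i ≠ j ∧ (y = e i + e j ∨ y = e i - e j ∨ y = -(e i + e j)) := by
  classical
  have hall : ∀ i j : Fin m, ∃ y, i ≠ j → y ∈ Psi Φ ∧ Pr u y i j := by
    intro i j
    by_cases hij : i = j
    · exact ⟨0, fun hh => absurd hij hh⟩
    · obtain ⟨y, hy, h1⟩ := M.all_pairs h hm hx0 hij0 h0 hij
      exact ⟨y, fun _ => ⟨hy, h1⟩⟩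
  choose X hX using hall
  have hsymm : ∀ i j, i ≠ j → X i j = X j i := fun i j hij =>
    M.unique h hm (hX i j hij).1 (hX j i hij.symm).1 hij (hX i j hij).2 (hX j i hij.symm).2.symm
  have hadd : ∀ i j l, i ≠ j → i ≠ l → X i j - u j = X i l - u l := by
    intro i j l hij hil
    by_cases hjl : j = l
    · rw [hjl]
    have h2 : inner ℝ (X i j) (u j - u l) = (1 : ℝ) := by
      rw [_root_.inner_sub_right, (hX i j hij).2 j, (hX i j hij).2 l, if_pos (Or.inr rfl), if_neg (by
        rintro (e | e)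
        · exact hil e.symm
        · exact hjl e.symm)]
      ring
    have h3 : X i j - (u j - u l) = X i l := by
      exact M.unique h hm (h.sub_Psi (hX i j hij).1 (M.mem j l hjl) h2) (hX i l hil).1 hil
        (M.pr_sub h hm hij hil hjl (hX i j hij).2) (hX i l hil).2
    rw [← h3]
    abel
  -- another index
  have hoth : ∀ i : Fin m, ∃ j, i ≠ j := by
    intro i
    by_cases e : i = ⟨0, by omega⟩
    · exact ⟨⟨1, by omega⟩, by rw [e]; simp⟩
    · exact ⟨⟨0, by omega⟩, e⟩
  choose o ho using hoth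
  set e : Fin m → E := fun i => (1 / 2 : ℝ) • (X i (o i) + u i - u (o i)) with he
  have hei : ∀ i j, i ≠ j → e i = (1 / 2 : ℝ) • (X i j + u i - u j) := by
    intro i j hij
    rw [he]
    simp only
    congr 1
    have h1 := hadd i (o i) j (ho i) hij
    have h2 : X i (o i) + u i - u (o i) = (X i (o i) - u (o i)) + u i := by abel
    rw [h2, h1]
    abel
  have hplus : ∀ i j, i ≠ j → e i + e j = X i j := by
    intro i j hij
    rw [hei i j hij, hei j i hij.symm, hsymm j i hij.symm, ← smul_add]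
    have h1 : X i j + u i - u j + (X i j + u j - u i) = (2 : ℝ) • X i j := by
      rw [two_smul]
      abel
    rw [h1, smul_smul]
    norm_num
  have hminus : ∀ i j, i ≠ j → e i - e j = u i - u j := by
    intro i j hij
    rw [hei i j hij, hei j i hij.symm, hsymm j i hij.symm, ← smul_sub]
    have h1 : X i j + u i - u j - (X i j + u j - u i) = (2 : ℝ) • (u i - u j) := by
      rw [two_smul]
      abel
    rw [h1, smul_smul]
    norm_num
  have hnorm : ∀ i, inner ℝ (e i) (e i) = (1 : ℝ) := by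
    intro i
    have hij := ho i
    have h1 : e i = (1 / 2 : ℝ) • (X i (o i) + (u i - u (o i))) := by
      rw [he]
      simp only
      congr 1
      abel
    have h2 : inner ℝ (X i (o i)) (u i - u (o i)) = (0 : ℝ) := by
      rw [_root_.inner_sub_right, (hX _ _ hij).2, (hX _ _ hij).2, if_pos (Or.inl rfl), if_pos (Or.inr rfl), sub_self]
    have h3 : inner ℝ (u i - u (o i)) (X i (o i)) = (0 : ℝ) := by
      rw [real_inner_comm]
      exact h2
    rw [h1, inner_smul_left, inner_smul_right, inner_add_left, inner_add_right, inner_add_right, h2, h3,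
      (mem_Psi.1 (hX _ _ hij).1).2, (mem_Psi.1 (M.mem _ _ hij)).2]
    simp only [conj_trivial]
    norm_num
  have horth : ∀ i j, i ≠ j → inner ℝ (e i) (e j) = (0 : ℝ) := by
    intro i j hij
    have h1 : inner ℝ (e i + e j) (e i + e j) = (2 : ℝ) := by
      rw [hplus i j hij]
      exact (mem_Psi.1 (hX _ _ hij).1).2
    rw [inner_add_left, inner_add_right, inner_add_right, hnorm, hnorm, real_inner_comm (e i) (e j)] at h1
    linarith
  refine ⟨e, ?_, ?_⟩
  · rw [orthonormal_iff_ite]
    intro i j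
    split_ifs with hij
    · rw [hij]; exact hnorm j
    · exact horth i j hij
  · have hback : ∀ y, (∃ i j, i ≠ j ∧ (y = e i + e j ∨ y = e i - e j ∨ y = -(e i + e j))) → y ∈ Psi Φ := by
      rintro y ⟨i, j, hij, rfl | rfl | rfl⟩
      · rw [hplus i j hij]; exact (hX _ _ hij).1
      · rw [hminus i j hij]; exact M.mem i j hij
      · rw [hplus i j hij]; exact h.neg_Psi (hX _ _ hij).1
    intro y
    refine ⟨fun hy => ?_, hback y⟩
    obtain ⟨g, hg, hu⟩ := M.nb_nonempty h hm
    have h1 := h.irr_Psi hg hu ((Psi Φ).filter fun y => ∃ i j, i ≠ j ∧ (y = e i + e j ∨ y = e i - e j ∨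
      y = -(e i + e j))) (Finset.filter_subset _ _) ?_ ?_
    · rw [← h1, Finset.mem_filter] at hy
      exact hy.2
    · exact ⟨_, Finset.mem_filter.2 ⟨(hX i0 j0 hij0).1, i0, j0, hij0, Or.inl (hplus i0 j0 hij0).symm⟩⟩
    · intro a ha b hb hbn
      rw [Finset.mem_filter] at ha hbn
      -- the profile of `b` is zero
      have hb0 : ∀ t, inner ℝ b (u t) = (0 : ℝ) := by
        rcases M.prof h hm hb (fun i j hij e' => hbn ⟨hb, i, j, hij, Or.inr (Or.inl (by rw [hminus i j hij, e']))⟩)
          with h2 | ⟨i', j', hij', h2 | h2⟩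
        · exact h2
        · exfalso
          have e5 : b = e i' + e j' := by
            rw [hplus i' j' hij']
            exact M.unique h hm hb (hX _ _ hij').1 hij' h2 (hX _ _ hij').2
          exact hbn ⟨hb, i', j', hij', Or.inl e5⟩
        · exfalso
          have e5 : -b = e i' + e j' := by
            rw [hplus i' j' hij']
            exact M.unique h hm (h.neg_Psi hb) (hX _ _ hij').1 hij' h2 (hX _ _ hij').2
          exact hbn ⟨hb, i', j', hij', Or.inr (Or.inr (by rw [← e5, neg_neg]))⟩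
      have hbu : ∀ i j, inner ℝ (u i - u j) b = (0 : ℝ) := by
        intro i j
        rw [_root_.inner_sub_left, real_inner_comm, hb0, real_inner_comm, hb0, sub_zero]
      have hbX : ∀ i j, i ≠ j → inner ℝ (X i j) b = (0 : ℝ) := by
        intro i j hij
        have hbne : b ≠ 0 := h.ne_zero b (mem_Psi.1 hb).1
        have e1 : X i j ≠ b := fun e' => hbn ⟨hb, i, j, hij, Or.inl (by rw [hplus i j hij, e'])⟩
        have e2 : X i j ≠ -b := fun e' => hbn ⟨hb, i, j, hij, Or.inr (Or.inr (by rw [hplus i j hij, e', neg_neg]))⟩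
        rcases h.inner_Psi (hX _ _ hij).1 hb e1 e2 with e3 | e3 | e3
        · exact e3
        · exfalso
          have e4 : X i j - b = X i j := by
            refine M.unique h hm (h.sub_Psi (hX _ _ hij).1 hb e3) (hX _ _ hij).1 hij (fun t => ?_) (hX _ _ hij).2
            rw [_root_.inner_sub_left, hb0, sub_zero]
            exact (hX _ _ hij).2 t
          exact hbne (sub_eq_self.1 e4)
        · exfalso
          have e4 : X i j + b = X i j := by
            refine M.unique h hm (h.add_Psi (hX _ _ hij).1 hb e3) (hX _ _ hij).1 hij (fun t => ?_) (hX _ _ hij).2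
            rw [inner_add_left, hb0, add_zero]
            exact (hX _ _ hij).2 t
          exact hbne (add_eq_left.1 e4)
      obtain ⟨-, i, j, hij, rfl | rfl | rfl⟩ := ha
      · rw [hplus i j hij]; exact hbX i j hij
      · rw [hminus i j hij]; exact hbu i j
      · rw [hplus i j hij, inner_neg_left, hbX i j hij, neg_zero]

end Mx

end TF
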